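import Pool.Agent.Helper28.MT.Goals3

/-!
# Project MT3: deletion of the inactive thresholds (packet MT3-ACT)
-/

set_option autoImplicit false

namespace Pool.Agent.Helper29.MT3

open Finset
open Pool.Agent.Helper55.Rota
open Pool.Agent.Helper28.MT
open Pool.Agent.Helper28.MT3

/-- The number of active thresholds `1 ≤ m ≤ a`. -/
private def N (A : ℕ → Prop) [DecidablePred A] (a : ℕ) : ℕ := ((Icc 1 a).filter A).card

section
variable (A : ℕ → Prop) [DecidablePred A]

private lemma N_zero : N A 0 = 0 := by simp [N]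

private lemma N_mono {a b : ℕ} (h : a ≤ b) : N A a ≤ N A b :=
  card_le_card (filter_subset_filter _ (Icc_subset_Icc_right h))

private lemma N_succ_le (a : ℕ) : N A (a + 1) ≤ N A a + 1 := by
  have h : (Icc 1 (a + 1)).filter A ⊆ insert (a + 1) ((Icc 1 a).filter A) := by
    intro m hm
    simp only [mem_filter, mem_Icc, mem_insert] at hm ⊢
    by_cases h : m = a + 1
    · exact Or.inl h
    · exact Or.inr ⟨⟨hm.1.1, by omega⟩, hm.2⟩
  exact (card_le_card h).trans (card_insert_le _ _)

private lemma N_add_le (a d : ℕ) : N A (a + d) ≤ N A a + d := by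
  induction d with
  | zero => simp
  | succ d ih =>
    have := N_succ_le A (a + d)
    rw [← Nat.add_assoc]
    omega

private lemma N_succ_of (a : ℕ) (h : A (a + 1)) : N A (a + 1) = N A a + 1 := by
  have e : (Icc 1 (a + 1)).filter A = insert (a + 1) ((Icc 1 a).filter A) := by
    ext m
    simp only [mem_filter, mem_Icc, mem_insert]
    constructor
    · rintro ⟨⟨h1, h2⟩, h3⟩
      by_cases h : m = a + 1
      · exact Or.inl h
      · exact Or.inr ⟨⟨h1, by omega⟩, h3⟩
    · rintro (rfl | ⟨⟨h1, h2⟩, h3⟩)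
      · exact ⟨⟨by omega, le_rfl⟩, h⟩
      · exact ⟨⟨h1, by omega⟩, h3⟩
  unfold N
  rw [e, card_insert_of_notMem]
  simp

private lemma N_succ_not (a : ℕ) (h : ¬ A (a + 1)) : N A (a + 1) = N A a := by
  have e : (Icc 1 (a + 1)).filter A = (Icc 1 a).filter A := by
    ext m
    simp only [mem_filter, mem_Icc]
    constructor
    · rintro ⟨⟨h1, h2⟩, h3⟩
      have : m ≠ a + 1 := fun e => h (e ▸ h3)
      exact ⟨⟨h1, by omega⟩, h3⟩
    · rintro ⟨⟨h1, h2⟩, h3⟩
      exact ⟨⟨h1, by omega⟩, h3⟩
  unfold N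
  rw [e]

private lemma N_add_of (a d : ℕ) (h : ∀ m, a < m → m ≤ a + d → A m) : N A (a + d) = N A a + d := by
  induction d with
  | zero => simp
  | succ d ih =>
    have h1 := ih fun m h1 h2 => h m h1 (by omega)
    have h2 := N_succ_of A (a + d) (h _ (by omega) (by omega))
    rw [← Nat.add_assoc, h2, h1]
    omega

/-- The `m`-th active threshold. -/
private lemma N_thr (m : ℕ) (hm : 1 ≤ m) :
    (∀ a, ¬ m ≤ N A a) ∨ ∃ μ, 1 ≤ μ ∧ A μ ∧ ∀ a, m ≤ N A a ↔ μ ≤ a := by
  by_cases h : ∃ a, m ≤ N A a
  · right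
    have hs := Nat.find_spec h
    have hmin := fun a (ha : a < Nat.find h) => Nat.find_min h ha
    set μ := Nat.find h with hμ
    have h0 : μ ≠ 0 := by
      intro e
      rw [e, N_zero] at hs
      omega
    obtain ⟨ν, hν⟩ := Nat.exists_eq_succ_of_ne_zero h0
    refine ⟨μ, by omega, ?_, fun a => ⟨fun ha => ?_, fun ha => hs.trans (N_mono A ha)⟩⟩
    · by_contra hA
      rw [hν] at hs hA
      have h1 := N_succ_not A ν hA
      have h2 := hmin ν (by omega)
      rw [Nat.succ_eq_add_one, h1] at hs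
      exact h2 hs
    · by_contra hlt
      exact hmin a (by omega) ha
  · left
    exact fun a ha => h ⟨a, ha⟩

end

/-- **MT3-ACT**. -/
theorem mt3_act : G_ACT := by
  intro α _ _ R n b S c T y v hn hloop hO
  classical
  obtain ⟨hTS, hT1, hTn, hcl, hle, heq, hlev⟩ := hO
  let A : ℕ → Prop := fun m => R.r (lev v m) < (univ.filter (fun i' => m ≤ y i')).card
  have hr0 : R.r ∅ = 0 := by
    have := R.le_card ∅
    simpa using this
  -- the levels of the new potential
  have hL : ∀ m, 1 ≤ m →
      (lev (fun x => N A (v x)) m = ∅ ∧ univ.filter (fun i => m ≤ N A (y i)) = ∅) ∨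
      ∃ μ, 1 ≤ μ ∧ A μ ∧ lev (fun x => N A (v x)) m = lev v μ ∧
        univ.filter (fun i => m ≤ N A (y i)) = univ.filter (fun i => μ ≤ y i) := by
    intro m hm
    rcases N_thr A m hm with h | ⟨μ, h1, hA, hμ⟩
    · left
      refine ⟨?_, ?_⟩
      · ext x
        simp [mem_lev, h]
      · ext x
        simp [h]
    · right
      refine ⟨μ, h1, hA, ?_, ?_⟩
      · ext x
        rw [mem_lev, mem_lev, hμ]
      · ext i
        simp only [mem_filter, mem_univ, true_and]
        rw [hμ]
  have hL0 : lev (fun x => N A (v x)) 0 = lev v 0 := by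
    ext x
    simp [mem_lev]
  -- `b` is injective on `T`
  have hinj : ∀ z ∈ T, ∀ z' ∈ T, b z = b z' → z = z' := by
    intro z hz z' hz' e
    have h1 := hT1 (b z')
    rw [card_eq_one] at h1
    obtain ⟨w, hw⟩ := h1
    have h2 : z ∈ T.filter (fun x => b x = b z') := mem_filter.mpr ⟨hz, e⟩
    have h3 : z' ∈ T.filter (fun x => b x = b z') := mem_filter.mpr ⟨hz', rfl⟩
    rw [hw, mem_singleton] at h2 h3
    rw [h2, h3]
  -- the thresholds of the elements of `T` are active
  have hact : ∀ x ∈ T, ∀ m, v x < m → m ≤ y (b x) → A m := by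
    intro x hx m h1 h2
    show R.r (lev v m) < (univ.filter (fun i' => m ≤ y i')).card
    rw [← hlev m]
    have hsub : (T ∩ lev v m).image b ⊆ (univ.filter (fun i' => m ≤ y i')).erase (b x) := by
      intro i hi
      rw [mem_image] at hi
      obtain ⟨z, hz, rfl⟩ := hi
      rw [mem_inter, mem_lev] at hz
      rw [mem_erase, mem_filter]
      refine ⟨fun e => ?_, mem_univ _, ?_⟩
      · have := hinj z hz.1 x hx e
        subst this
        omega
      · have := heq z hz.1
        omega
    have hc1 : ((T ∩ lev v m).image b).card = (T ∩ lev v m).card :=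
      card_image_of_injOn fun z hz z' hz' e =>
        hinj z (mem_inter.mp (mem_coe.mp hz)).1 z' (mem_inter.mp (mem_coe.mp hz')).1 e
    have hmem : b x ∈ univ.filter (fun i' => m ≤ y i') := mem_filter.mpr ⟨mem_univ _, h2⟩
    have hc2 := card_erase_lt_of_mem hmem
    calc (T ∩ lev v m).card = ((T ∩ lev v m).image b).card := hc1.symm
      _ ≤ _ := card_le_card hsub
      _ < _ := hc2
  refine ⟨fun i => N A (y i), fun x => N A (v x), ⟨hTS, hT1, hTn, ?_, ?_, ?_, ?_⟩, ?_⟩
  · intro m
    rcases Nat.eq_zero_or_pos m with rfl | hm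
    · rw [hL0]
      exact hcl 0
    · rcases hL m hm with ⟨h1, -⟩ | ⟨μ, -, -, h1, -⟩
      · rw [h1]
        intro x hx
        exfalso
        have h2 := hloop x
        rw [insert_empty_eq] at hx
        omega
      · rw [h1]
        exact hcl μ
  · intro x hx
    exact (N_mono A (hle x hx)).trans (N_add_le A _ _)
  · intro x hx
    have h1 := heq x hx
    show N A (y (b x)) = N A (v x) + c x
    rw [h1]
    exact N_add_of A _ _ fun m h2 h3 => hact x hx m h2 (by omega)
  · intro m
    rcases Nat.eq_zero_or_pos m with rfl | hm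
    · rw [hL0]
      exact hlev 0
    · rcases hL m hm with ⟨h1, -⟩ | ⟨μ, -, -, h1, -⟩
      · rw [h1, inter_empty, card_empty, hr0]
      · rw [h1]
        exact hlev μ
  · intro m hm i hi
    rcases hL m hm with ⟨-, h2⟩ | ⟨μ, -, hA, h1, h2⟩
    · exfalso
      have : i ∈ univ.filter (fun i => m ≤ N A (y i)) := mem_filter.mpr ⟨mem_univ _, hi⟩
      rw [h2] at this
      simp at this
    · rw [h1, h2]
      exact hA

end Pool.Agent.Helper29.MT3
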