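import Pool.Agent.Helper28.MT.Goals3

/-!
# Project MT3: choice of the description (packet MT3-ENC)
-/

set_option autoImplicit false

namespace Pool.Agent.Helper29.MT3

open Finset
open Pool.Agent.Helper55.Rota
open Pool.Agent.Helper28.MT
open Pool.Agent.Helper28.MT3

private lemma pow_bound (q : ℕ) (hq : 4 ≤ q) : 6 * q ≤ 2 ^ (q + 1) := by
  induction q, hq using Nat.le_induction with
  | base => norm_num
  | succ q hq ih =>
    rw [pow_succ]
    omega

/-- If the short description is too long then `h ≤ 2 e`. -/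
private lemma num (k h e : ℕ) (h1 : 2 ^ h ≤ 2 * k) (h12 : 12 ≤ h) (he : 1 ≤ e)
    (hn : ¬ 2 ^ e * (e + 2 * h) ≤ 4 * k * e) : h ≤ 2 * e := by
  by_contra hcon
  push Not at hcon
  apply hn
  obtain ⟨q, rfl⟩ : ∃ q, h = e + q := ⟨h - e, by omega⟩
  have h3 := pow_bound q (by omega)
  have h4 : e + 2 * (e + q) ≤ 2 ^ (q + 1) := by omega
  calc 2 ^ e * (e + 2 * (e + q)) ≤ 2 ^ e * 2 ^ (q + 1) := Nat.mul_le_mul_left _ h4
    _ = 2 * 2 ^ (e + q) := by rw [← pow_add, ← Nat.add_assoc, pow_succ]; ring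
    _ ≤ 2 * (2 * k) := Nat.mul_le_mul_left _ h1
    _ = 4 * k * 1 := by ring
    _ ≤ 4 * k * e := Nat.mul_le_mul_left _ he

/-- **MT3-ENC**. -/
theorem mt3_enc : G_ENCA → G_U → G_ENC := by
  intro hA hU α _ _ R n k h b t a S c T y v c0 e hk hn hkh hhk h12 hr hloop hblk hind hinj hO hc0
    he hsum
  by_cases hcase : 2 ^ e * (e + 2 * h) ≤ 4 * k * e
  · obtain ⟨j, g, u, Q, h1, h2⟩ := hA α R n k b t a S c T y v c0 (2 ^ e) hk hn hr hloop hblk hind
      hinj hO hc0 hsum
    refine ⟨Vfam R b t a j g u Q, ?_, h1, h2⟩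
    unfold Vf
    rw [if_pos hcase]
    exact mem_union_left _ (mem_image.mpr ⟨(j, g, u, Q), mem_univ _, rfl⟩)
  · have hh := num k h e hhk h12 he hcase
    obtain ⟨e', g, hUe⟩ := hU α R n b S c T y v c0 hr hO.1
    refine ⟨Ufam R b e' g, ?_, ?_, ?_⟩
    · unfold Vf
      rw [if_pos hh]
      exact mem_union_right _ (mem_image.mpr ⟨(e', g), mem_univ _, rfl⟩)
    · intro x hx
      rw [← hUe, mem_filter]
      exact ⟨mem_univ _, by omega⟩
    · intro x hx
      rw [← hUe, mem_filter] at hx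
      exact hx.2

end Pool.Agent.Helper29.MT3
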